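import Pool.Agent.H22.Pom3

namespace Pool.Agent.Results.MP_26a3fe_lc.Hard

open Pool.Agent.H36.PSpace Pool.Agent.H22.Pom

/-- Deciding whether the pomax game on a coloured poset of height at most two equals `0` is
PSPACE-hard. -/
theorem result : PSPACEHardOn Height2 Zero := pom_psh.hardOn

end Pool.Agent.Results.MP_26a3fe_lc.Hard
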